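import Mathlib

set_option autoImplicit false
open scoped Pointwise

/-!
A finitely generated flat group of automorphisms of a compact group whose nub is not a product of
finitely many nubs of its elements.

`X` is the disjoint union over `p` of `(ℤ/p)² ⊔ ℤ`.  The permutation `b` is `(i,j) ↦ (i,j+1)` on
the torus and the identity on `ℤ`; `a` is `(i,j) ↦ (i+1,j)` and `n ↦ n+1`, precomposed with the
transposition of `(0,0)` and `0 ∈ ℤ`.  The group `⟨a,b⟩` acts on the compact group `G = (ℤ/2)^X`.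
Every point of a torus lies in an infinite orbit of a conjugate of `a`; finitely many elements of
`⟨a,b⟩` have a common point (in a large torus) at which all of them have finite orbits.
-/

namespace Pool.Agent.Y49.NubNotProduct

abbrev C : Type := Multiplicative (ZMod 2)

/-- the nontrivial element of `C` -/
def c : C := Multiplicative.ofAdd 1

theorem c_ne : c ≠ 1 := by decide

/-- the torus -/
abbrev T (p : ℕ) : Type := ZMod p × ZMod p

abbrev X : Type := Σ p : ℕ, (T p ⊕ ℤ)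

abbrev G : Type := X → C

/-- A permutation of `X` acts on `G`. -/
def ψ : Equiv.Perm X →* MulAut G where
  toFun σ :=
    { toFun := fun f y => f (σ⁻¹ y)
      invFun := fun f y => f (σ y)
      left_inv := fun f => by funext y; simp
      right_inv := fun f => by funext y; simp
      map_mul' := fun f g => rfl }
  map_one' := rfl
  map_mul' σ τ := by
    ext f y
    simp [mul_inv_rev]

theorem ψ_apply (σ : Equiv.Perm X) (f : G) (y : X) : ψ σ f y = f (σ⁻¹ y) := rfl

theorem ψ_continuous (σ : Equiv.Perm X) : Continuous (ψ σ) := by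
  refine continuous_pi fun y => ?_
  exact continuous_apply (σ⁻¹ y)

def sh : Equiv.Perm X :=
  Equiv.sigmaCongrRight fun p =>
    Equiv.sumCongr (Equiv.addRight ((1, 0) : T p)) (Equiv.addRight (1 : ℤ))

def sw : Equiv.Perm X :=
  Equiv.sigmaCongrRight fun _ => Equiv.swap (Sum.inl 0) (Sum.inr 0)

def a : Equiv.Perm X := sh * sw

def b : Equiv.Perm X :=
  Equiv.sigmaCongrRight fun p =>
    Equiv.sumCongr (Equiv.addRight ((0, 1) : T p)) (Equiv.refl ℤ)

theorem b_inl (p : ℕ) (t : T p) : b ⟨p, Sum.inl t⟩ = ⟨p, Sum.inl (t + (0, 1))⟩ := rfl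

theorem a_inl (p : ℕ) (t : T p) (ht : t ≠ 0) :
    a ⟨p, Sum.inl t⟩ = ⟨p, Sum.inl (t + (1, 0))⟩ := by
  have h1 : sw ⟨p, Sum.inl t⟩ = ⟨p, Sum.inl t⟩ := by
    simp only [sw, Equiv.sigmaCongrRight_apply]
    rw [Equiv.swap_apply_of_ne_of_ne]
    · exact fun h => ht (Sum.inl_injective h)
    · exact Sum.inl_ne_inr
  change sh (sw ⟨p, Sum.inl t⟩) = _
  rw [h1]
  rfl

theorem a_inl_zero (p : ℕ) : a ⟨p, Sum.inl 0⟩ = ⟨p, Sum.inr 1⟩ := by
  have h1 : sw ⟨p, Sum.inl 0⟩ = ⟨p, Sum.inr 0⟩ := by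
    simp only [sw, Equiv.sigmaCongrRight_apply]
    rw [Equiv.swap_apply_left]
  change sh (sw ⟨p, Sum.inl 0⟩) = _
  rw [h1]
  rfl

theorem a_inr (p : ℕ) (n : ℤ) (hn : n ≠ 0) : a ⟨p, Sum.inr n⟩ = ⟨p, Sum.inr (n + 1)⟩ := by
  have h1 : sw ⟨p, Sum.inr n⟩ = ⟨p, Sum.inr n⟩ := by
    simp only [sw, Equiv.sigmaCongrRight_apply]
    rw [Equiv.swap_apply_of_ne_of_ne]
    · exact Sum.inr_ne_inl
    · exact fun h => hn (Sum.inr_injective h)
  change sh (sw ⟨p, Sum.inr n⟩) = _
  rw [h1]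
  rfl

theorem a_iter_inr (p : ℕ) (k : ℕ) : (a ^ k) ⟨p, Sum.inr 1⟩ = ⟨p, Sum.inr (1 + k)⟩ := by
  induction k with
  | zero => simp
  | succ k ih =>
    rw [pow_succ', Equiv.Perm.mul_apply, ih, a_inr _ _ (by omega)]
    have : (1 + (k : ℤ) + 1) = 1 + ((k + 1 : ℕ) : ℤ) := by push_cast; ring
    rw [this]

theorem a_reach (p : ℕ) (k : ℕ) :
    ∃ m : ℕ, (a ^ m) ⟨p, Sum.inl (-(k : ZMod p), 0)⟩ = ⟨p, Sum.inr 1⟩ := by
  induction k with
  | zero => exact ⟨1, by
      have h0 : ((-((0 : ℕ) : ZMod p), 0) : T p) = 0 := by ext <;> simp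
      rw [h0]; simpa using a_inl_zero p⟩
  | succ k ih =>
    by_cases h0 : ((-((k + 1 : ℕ) : ZMod p), 0) : T p) = 0
    · exact ⟨1, by rw [h0]; simpa using a_inl_zero p⟩
    · obtain ⟨m, hm⟩ := ih
      refine ⟨m + 1, ?_⟩
      rw [pow_succ, Equiv.Perm.mul_apply, a_inl _ _ h0]
      rw [← hm]
      congr 3
      ext <;> simp

/-- No power of `a` fixes a point of the row `j = 0` of the torus. -/
theorem a_not_periodic (p : ℕ) [NeZero p] (i : ZMod p) (n : ℕ) (hn : 0 < n) :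
    (a ^ n) ⟨p, Sum.inl (i, 0)⟩ ≠ ⟨p, Sum.inl (i, 0)⟩ := by
  intro h
  obtain ⟨m, hm⟩ := a_reach p (-i).val
  rw [ZMod.natCast_zmod_val, neg_neg] at hm
  have h1 : (a ^ n) ⟨p, Sum.inr 1⟩ = ⟨p, Sum.inr 1⟩ := by
    rw [← hm, ← Equiv.Perm.mul_apply, ← pow_add, add_comm n m, pow_add, Equiv.Perm.mul_apply, h]
  rw [a_iter_inr] at h1
  have h2 : (1 + n : ℤ) = 1 := by
    have := eq_of_heq (Sigma.mk.inj h1).2
    exact Sum.inr_injective this
  omega

/-- the conjugate of `a` used for the row `j` -/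
def α (k : ℕ) : Equiv.Perm X := b ^ k * a * (b ^ k)⁻¹

theorem b_iter (p : ℕ) (t : T p) (k : ℕ) :
    (b ^ k) ⟨p, Sum.inl t⟩ = ⟨p, Sum.inl (t + (0, (k : ZMod p)))⟩ := by
  induction k with
  | zero => simp
  | succ k ih =>
    rw [pow_succ', Equiv.Perm.mul_apply, ih, b_inl]
    congr 2
    ext
    · simp
    · simp [add_assoc]

theorem α_not_periodic (p : ℕ) [NeZero p] (t : T p) (n : ℕ) (hn : 0 < n) :
    (α t.2.val ^ n) ⟨p, Sum.inl t⟩ ≠ ⟨p, Sum.inl t⟩ := by
  have h1 : (b ^ t.2.val) ⟨p, Sum.inl (t.1, 0)⟩ = ⟨p, Sum.inl t⟩ := by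
    rw [b_iter]
    congr 2
    ext <;> simp
  intro h
  rw [α, conj_pow, ← h1] at h
  rw [Equiv.Perm.mul_apply, Equiv.Perm.mul_apply, ← Equiv.Perm.mul_apply _⁻¹ _, inv_mul_cancel,
    Equiv.Perm.one_apply] at h
  exact a_not_periodic p t.1 n hn ((b ^ t.2.val).injective h)

theorem α_injective (p : ℕ) [NeZero p] (t : T p) :
    Function.Injective fun k : ℤ => (α t.2.val ^ k) (⟨p, Sum.inl t⟩ : X) := by
  have key : ∀ k l : ℤ, k < l → (α t.2.val ^ k) (⟨p, Sum.inl t⟩ : X) ≠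
      (α t.2.val ^ l) (⟨p, Sum.inl t⟩ : X) := by
    intro k l hkl h
    obtain ⟨n, hn⟩ := Int.eq_ofNat_of_zero_le (show 0 ≤ l - k by omega)
    have h1 : l = k + n := by omega
    rw [h1, zpow_add, Equiv.Perm.mul_apply] at h
    have h2 := (α t.2.val ^ k).injective h
    rw [zpow_natCast] at h2
    exact α_not_periodic p t n (by omega) h2.symm
  intro k l h
  rcases lt_trichotomy k l with h1 | h1 | h1
  · exact absurd h (key k l h1)
  · exact h1
  · exact absurd h.symm (key l k h1)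

/-! ### Generic points -/

/-- the cast map to the torus -/
def cst (p : ℕ) : ℤ × ℤ →+ T p :=
  AddMonoidHom.prodMap (Int.castAddHom (ZMod p)) (Int.castAddHom (ZMod p))

theorem cst_apply (p : ℕ) (v : ℤ × ℤ) : cst p v = ((v.1 : ZMod p), (v.2 : ZMod p)) := rfl

/-- `h` acts as the translation by `v` away from the image of `S`. -/
def Trans (h : Equiv.Perm X) (v : ℤ × ℤ) (S : Finset (ℤ × ℤ)) : Prop :=
  ∀ (p : ℕ) (t : T p), (∀ s ∈ S, t ≠ cst p s) → h ⟨p, Sum.inl t⟩ = ⟨p, Sum.inl (t + cst p v)⟩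

theorem trans_of_mem (h : Equiv.Perm X) (hh : h ∈ Subgroup.closure {a, b}) :
    ∃ v S, Trans h v S := by
  classical
  induction hh using Subgroup.closure_induction with
  | mem x hx =>
    rcases hx with rfl | rfl
    · refine ⟨(1, 0), {0}, fun p t ht => ?_⟩
      have := ht 0 (by simp)
      rw [map_zero] at this
      rw [a_inl _ _ this, cst_apply]
      simp
    · refine ⟨(0, 1), ∅, fun p t _ => ?_⟩
      rw [b_inl, cst_apply]
      simp
  | one => exact ⟨0, ∅, fun p t _ => by simp⟩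
  | mul x y _ _ hx hy =>
    obtain ⟨v, S, h1⟩ := hx
    obtain ⟨w, R, h2⟩ := hy
    refine ⟨w + v, R ∪ S.image (fun s => s - w), fun p t ht => ?_⟩
    rw [Equiv.Perm.mul_apply, h2 p t (fun s hs => ht s (by simp [hs])), h1 p]
    · rw [map_add, add_assoc]
    · intro s hs hcon
      refine ht (s - w) ?_ ?_
      · rw [Finset.mem_union]
        exact Or.inr (Finset.mem_image_of_mem _ hs)
      · rw [map_sub, ← hcon, add_sub_cancel_right]
  | inv x _ hx =>
    obtain ⟨v, S, h1⟩ := hx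
    refine ⟨-v, S.image (fun s => s + v), fun p t ht => ?_⟩
    rw [Equiv.Perm.inv_eq_iff_eq, h1 p]
    · rw [map_neg, neg_add_cancel_right]
    · intro s hs hcon
      refine ht (s + v) (Finset.mem_image_of_mem _ hs) ?_
      rw [map_add, ← hcon, map_neg, neg_add_cancel_right]

/-- The counting argument: a common generic point. -/
theorem exists_generic (D : Finset ((ℤ × ℤ) × (ℤ × ℤ))) :
    ∃ (p : ℕ) (_ : NeZero p) (t : T p), ∀ d ∈ D, ∀ k : ℤ, t + k • cst p d.1 ≠ cst p d.2 := by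
  refine ⟨D.card + 1, ⟨by omega⟩, ?_⟩
  set p := D.card + 1 with hp
  have : NeZero p := ⟨by omega⟩
  by_contra hcon
  push Not at hcon
  have hsurj : Function.Surjective
      (fun x : D × ZMod p => cst p x.1.1.2 - x.2 • cst p x.1.1.1) := by
    intro t
    obtain ⟨d, hd, k, hk⟩ := hcon t
    refine ⟨(⟨d, hd⟩, (k : ZMod p)), ?_⟩
    simp only
    rw [← hk]
    ext <;> simp
  have h1 := Fintype.card_le_of_surjective _ hsurj
  simp only [Fintype.card_prod, ZMod.card, Fintype.card_coe] at h1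
  rw [hp] at h1
  nlinarith

theorem orbit_formula (h : Equiv.Perm X) (v : ℤ × ℤ) (S : Finset (ℤ × ℤ)) (hT : Trans h v S)
    (p : ℕ) (t : T p) (ht : ∀ s ∈ S, ∀ k : ℤ, t + k • cst p v ≠ cst p s) (k : ℤ) :
    (h ^ k) ⟨p, Sum.inl t⟩ = ⟨p, Sum.inl (t + k • cst p v)⟩ := by
  have step : ∀ k : ℤ, h ⟨p, Sum.inl (t + k • cst p v)⟩ =
      ⟨p, Sum.inl (t + (k + 1) • cst p v)⟩ := by
    intro k
    rw [hT p _ (fun s hs => ht s hs k), add_smul, one_smul, add_assoc]
  induction k using Int.induction_on with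
  | zero => simp
  | succ k ih => rw [add_comm (k : ℤ) 1, zpow_one_add, Equiv.Perm.mul_apply, ih, step,
      add_comm (k : ℤ) 1]
  | pred k ih =>
    apply h.injective
    rw [step, ← Equiv.Perm.mul_apply, ← zpow_one_add]
    rw [show 1 + (-(k : ℤ) - 1) = -(k : ℤ) by ring, show -(k : ℤ) - 1 + 1 = -(k : ℤ) by ring]
    exact ih

/-! ### Tidy subgroups -/

/-- The tidiness predicate of the problem. -/
def Tidy (A : MulAut G) (U : Subgroup G) : Prop :=
  ((U : Set G) =
      (⋂ n : ℕ, Set.image (⇑(A ^ n)) (U : Set G)) *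
        (⋂ n : ℕ, Set.image (⇑(A⁻¹ ^ n)) (U : Set G)) ∧
    IsClosed (⋃ m : ℕ, Set.image (⇑(A ^ m))
        (⋂ n : ℕ, Set.image (⇑(A ^ n)) (U : Set G))))

theorem tidy_of_invariant (A : MulAut G) (U : Subgroup G) (hU : IsClosed (U : Set G))
    (h1 : Set.image A (U : Set G) = U) : Tidy A U := by
  have h2 : Set.image (⇑(A⁻¹)) (U : Set G) = U := by
    conv_lhs => rw [← h1]
    rw [Set.image_image]
    simp
  have h3 : ∀ n : ℕ, Set.image (⇑(A ^ n)) (U : Set G) = U := by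
    intro n
    induction n with
    | zero => simp
    | succ n ih =>
      rw [pow_succ, MulAut.coe_mul, Set.image_comp, h1, ih]
  have h4 : ∀ n : ℕ, Set.image (⇑(A⁻¹ ^ n)) (U : Set G) = U := by
    intro n
    induction n with
    | zero => simp
    | succ n ih =>
      rw [pow_succ, MulAut.coe_mul, Set.image_comp, h2, ih]
  constructor
  · simp only [h3, h4, Set.iInter_const]
    exact (coe_mul_coe U).symm
  · simp only [h3, Set.iInter_const, Set.iUnion_const]
    exact hU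

/-- The functions that are trivial on an orbit of `σ`. -/
def orbSub (σ : Equiv.Perm X) (x : X) : Subgroup G where
  carrier := {f | ∀ k : ℤ, f ((σ ^ k) x) = 1}
  mul_mem' := fun {f g} hf hg k => by
    rw [Pi.mul_apply, hf k, hg k, one_mul]
  one_mem' := fun _ => rfl
  inv_mem' := fun {f} hf k => by
    rw [Pi.inv_apply, hf k, inv_one]

theorem mem_orbSub (σ : Equiv.Perm X) (x : X) (f : G) :
    f ∈ orbSub σ x ↔ ∀ k : ℤ, f ((σ ^ k) x) = 1 := Iff.rfl

theorem orbSub_closed (σ : Equiv.Perm X) (x : X) : IsClosed (orbSub σ x : Set G) := by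
  have : (orbSub σ x : Set G) = ⋂ k : ℤ, {f : G | f ((σ ^ k) x) = 1} := by
    ext f
    simp [mem_orbSub]
  rw [this]
  exact isClosed_iInter fun k => isClosed_eq (continuous_apply _) continuous_const

theorem orbSub_open (σ : Equiv.Perm X) (x : X) (hfin : (Set.range fun k : ℤ => (σ ^ k) x).Finite) :
    IsOpen (orbSub σ x : Set G) := by
  have : (orbSub σ x : Set G) = ⋂ y ∈ Set.range (fun k : ℤ => (σ ^ k) x), {f : G | f y = 1} := by
    ext f
    simp [mem_orbSub]
  rw [this]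
  refine hfin.isOpen_biInter fun y _ => ?_
  change IsOpen ((fun f : G => f y) ⁻¹' ({1} : Set C))
  exact (isOpen_discrete _).preimage (continuous_apply y)

theorem orbSub_invariant (σ : Equiv.Perm X) (x : X) :
    Set.image (ψ σ) (orbSub σ x : Set G) = orbSub σ x := by
  ext f
  constructor
  · rintro ⟨g, hg, rfl⟩ k
    rw [ψ_apply, ← Equiv.Perm.mul_apply, ← zpow_neg_one, ← zpow_add]
    exact hg _
  · intro hf
    refine ⟨ψ σ⁻¹ f, fun k => ?_, ?_⟩
    · rw [ψ_apply, inv_inv, ← Equiv.Perm.mul_apply, ← zpow_one_add]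
      exact hf _
    · rw [map_inv]
      exact MulAut.apply_inv_self _ _ _

/-- Key lemma: an open subgroup tidy for `σ` contains the indicator of every point with an
infinite `σ`-orbit. -/
theorem mulSingle_mem (σ : Equiv.Perm X) (U : Subgroup G) (hU : IsOpen (U : Set G))
    (ht : Tidy (ψ σ) U) (x : X) (hx : Function.Injective fun k : ℤ => (σ ^ k) x) :
    Pi.mulSingle x c ∈ U := by
  classical
  -- a finite set of coordinates
  obtain ⟨S, hS⟩ : ∃ S : Finset X, ∀ f : G, (∀ y ∈ S, f y = 1) → f ∈ U := by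
    obtain ⟨I, u, h1, h2⟩ := isOpen_pi_iff.1 hU 1 U.one_mem
    refine ⟨I, fun f hf => h2 fun y hy => ?_⟩
    rw [hf y hy]
    exact (h1 y hy).2
  have hS' : ∀ f g : G, (∀ y ∈ S, f y = g y) → g ∈ U → f ∈ U := by
    intro f g hfg hg
    have h1 : f * g⁻¹ ∈ U := hS _ fun y hy => by
      rw [Pi.mul_apply, Pi.inv_apply, hfg y hy, mul_inv_cancel]
    have h2 := U.mul_mem h1 hg
    rwa [inv_mul_cancel_right] at h2
  -- escape
  obtain ⟨N, hN0, hN⟩ : ∃ N : ℤ, 0 < N ∧ ∀ k : ℤ, N ≤ |k| → (σ ^ k) x ∉ S := by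
    have hfin : ((fun k : ℤ => (σ ^ k) x) ⁻¹' (S : Set X)).Finite :=
      Set.Finite.preimage hx.injOn S.finite_toSet
    have hfin2 := hfin.image (fun k : ℤ => |k|)
    obtain ⟨M, hM⟩ := hfin2.bddAbove
    refine ⟨|M| + 1, by positivity, fun k hk hmem => ?_⟩
    have h1 : |k| ≤ M := hM ⟨k, hmem, rfl⟩
    have := le_abs_self M
    omega
  -- the membership in `U₊₊`
  have hpp : ∀ f : G, f ∈ (⋃ m : ℕ, Set.image (⇑(ψ σ ^ m))
        (⋂ n : ℕ, Set.image (⇑(ψ σ ^ n)) (U : Set G))) ↔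
      ∃ m : ℕ, ∀ n : ℕ, (fun y => f ((σ ^ (m + n)) y)) ∈ U := by
    intro f
    simp only [Set.mem_iUnion, Set.mem_image, Set.mem_iInter]
    refine exists_congr fun m => ?_
    constructor
    · rintro ⟨g, hg, rfl⟩ n
      obtain ⟨u, hu, hu2⟩ := hg n
      have : (fun y => (ψ σ ^ m) g ((σ ^ (m + n)) y)) = u := by
        rw [← hu2, ← map_pow, ← map_pow]
        funext y
        rw [ψ_apply, ψ_apply, pow_add, Equiv.Perm.mul_apply]
        simp
      rw [this]
      exact hu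
    · intro h
      refine ⟨ψ (σ ^ m)⁻¹ f, fun n => ⟨fun y => f ((σ ^ (m + n)) y), h n, ?_⟩, ?_⟩
      · rw [← map_pow]
        funext y
        rw [ψ_apply, ψ_apply, pow_add, Equiv.Perm.mul_apply]
        simp
      · rw [map_inv, ← map_pow]
        exact MulAut.apply_inv_self _ _ _
  -- the partial sums
  set s : ℕ → G := fun J y => if ∃ j : ℕ, j < J ∧ y = (σ ^ (N * (j + 1))) x then c else 1 with hs
  set f : G := fun y => if ∃ j : ℕ, y = (σ ^ (N * (j + 1))) x then c else 1 with hf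
  have hsmem : ∀ J, s J ∈ (⋃ m : ℕ, Set.image (⇑(ψ σ ^ m))
        (⋂ n : ℕ, Set.image (⇑(ψ σ ^ n)) (U : Set G))) := by
    intro J
    rw [hpp]
    refine ⟨(N * (J + 1)).toNat, fun n => hS _ fun y hy => ?_⟩
    rw [hs]
    simp only
    rw [if_neg]
    rintro ⟨j, hj, hy2⟩
    have h1 : y = (σ ^ (N * (j + 1) - (N * (J + 1) + n))) x := by
      rw [show N * (j + 1) - (N * (J + 1) + n) = -(N * (J + 1) + n) + N * (j + 1) by ring,
        zpow_add, zpow_neg, Equiv.Perm.mul_apply, ← hy2]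
      rw [Equiv.Perm.eq_inv_iff_eq]
      rw [← zpow_natCast]
      congr 1
      congr 1
      push_cast
      rw [Int.toNat_of_nonneg (by positivity)]
    refine hN (N * (j + 1) - (N * (J + 1) + n)) ?_ (h1 ▸ hy)
    have h2 : (j : ℤ) + 1 ≤ J := by exact_mod_cast hj
    have h3 : N * (j + 1) ≤ N * J := by nlinarith
    rw [abs_of_nonpos (by nlinarith)]
    nlinarith
  have hfmem : f ∈ (⋃ m : ℕ, Set.image (⇑(ψ σ ^ m))
        (⋂ n : ℕ, Set.image (⇑(ψ σ ^ n)) (U : Set G))) := by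
    refine ht.2.mem_of_tendsto (f := s) (b := Filter.atTop) ?_ (Filter.Eventually.of_forall hsmem)
    rw [tendsto_pi_nhds]
    intro y
    refine tendsto_const_nhds.congr' ?_
    by_cases hy : ∃ j : ℕ, y = (σ ^ (N * (j + 1))) x
    · obtain ⟨j, hj⟩ := hy
      filter_upwards [Filter.eventually_gt_atTop j] with J hJ
      rw [hf, hs]
      simp only
      rw [if_pos ⟨j, hj⟩, if_pos ⟨j, hJ, hj⟩]
    · filter_upwards with J
      rw [hf, hs]
      simp only
      rw [if_neg hy, if_neg]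
      rintro ⟨j, _, hj⟩
      exact hy ⟨j, hj⟩
  obtain ⟨m, hm⟩ := (hpp f).1 hfmem
  have hnn : (0 : ℤ) ≤ N * (m + 1) - m := by nlinarith
  have hm2 := hm (N * (m + 1) - m).toNat
  refine hS' _ _ (fun y hy => ?_) hm2
  rw [hf]
  simp only
  have hexp : (σ ^ (m + (N * (m + 1) - m).toNat)) y = (σ ^ (N * (m + 1))) y := by
    rw [← zpow_natCast]
    congr 1
    congr 1
    push_cast
    rw [Int.toNat_of_nonneg hnn]
    ring
  rw [hexp]
  by_cases hxy : y = x
  · subst hxy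
    rw [Pi.mulSingle_eq_same, if_pos]
    exact ⟨m, rfl⟩
  · rw [Pi.mulSingle_eq_of_ne hxy, if_neg]
    rintro ⟨j, hj⟩
    have h1 : y = (σ ^ (N * (j + 1) - N * (m + 1))) x := by
      rw [show N * (j + 1) - N * (m + 1) = -(N * (m + 1)) + N * (j + 1) by ring,
        zpow_add, zpow_neg, Equiv.Perm.mul_apply, ← hj]
      rw [Equiv.Perm.eq_inv_iff_eq]
    have h2 : j ≠ m := by
      rintro rfl
      rw [sub_self, zpow_zero] at h1
      exact hxy h1
    refine hN (N * (j + 1) - N * (m + 1)) ?_ (h1 ▸ hy)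
    rw [← mul_sub, abs_mul, abs_of_pos hN0]
    have h3 : 1 ≤ |(j : ℤ) + 1 - (m + 1)| := by
      apply Int.one_le_abs
      omega
    nlinarith

/-! ### The group and the conclusion -/

/-- The group of automorphisms. -/
def HH : Subgroup (MulAut G) := (Subgroup.closure {a, b}).map ψ

theorem HH_fg : HH.FG := by
  have : (Subgroup.closure ({a, b} : Set (Equiv.Perm X))).FG :=
    Subgroup.fg_iff _ |>.2 ⟨{a, b}, rfl, by simp⟩
  rw [HH, MonoidHom.map_closure]
  exact Subgroup.fg_iff _ |>.2 ⟨_, rfl, (Set.toFinite _).image _⟩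

theorem HH_continuous (A : MulAut G) (hA : A ∈ HH) : Continuous A := by
  obtain ⟨σ, _, rfl⟩ := hA
  exact ψ_continuous σ

theorem top_tidy (A : MulAut G) : Tidy A ⊤ := by
  refine tidy_of_invariant A ⊤ (by simp) ?_
  simp

/-- the nub of one element -/
def nub (A : MulAut G) : Set G :=
  ⋂ (U : Subgroup G) (_ : IsCompact (U : Set G) ∧ IsOpen (U : Set G) ∧ Tidy A U), (U : Set G)

theorem exists_point (l : List (MulAut G)) (hl : ∀ A ∈ l, A ∈ HH) :
    ∃ (p : ℕ) (_ : NeZero p) (t : T p), ∀ A ∈ l, nub A ⊆ {f : G | f ⟨p, Sum.inl t⟩ = 1} := by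
  classical
  have h1 : ∃ D : Finset ((ℤ × ℤ) × (ℤ × ℤ)), ∀ A ∈ l, ∃ (σ : Equiv.Perm X) (v : ℤ × ℤ)
      (S : Finset (ℤ × ℤ)), A = ψ σ ∧ Trans σ v S ∧ ∀ s ∈ S, (v, s) ∈ D := by
    induction l with
    | nil => exact ⟨∅, by simp⟩
    | cons B l ih =>
      obtain ⟨D, hD⟩ := ih fun A hA => hl A (List.mem_cons_of_mem _ hA)
      obtain ⟨σ, hσ, hB⟩ := hl B List.mem_cons_self
      obtain ⟨v, S, hvS⟩ := trans_of_mem σ hσ
      refine ⟨D ∪ S.image (fun s => (v, s)), fun A hA => ?_⟩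
      rcases List.mem_cons.1 hA with rfl | hA
      · refine ⟨σ, v, S, hB.symm, hvS, fun s hs => ?_⟩
        rw [Finset.mem_union]
        exact Or.inr (Finset.mem_image_of_mem _ hs)
      · obtain ⟨σ', v', S', h1, h2, h3⟩ := hD A hA
        exact ⟨σ', v', S', h1, h2, fun s hs => by simp [h3 s hs]⟩
  obtain ⟨D, hD⟩ := h1
  obtain ⟨p, hp, t, ht⟩ := exists_generic D
  refine ⟨p, hp, t, fun A hA => ?_⟩
  obtain ⟨σ, v, S, rfl, h2, h3⟩ := hD A hA
  have horb := orbit_formula σ v S h2 p t (fun s hs k => ht (v, s) (h3 s hs) k)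
  have hfin : (Set.range fun k : ℤ => (σ ^ k) (⟨p, Sum.inl t⟩ : X)).Finite := by
    have h4 : (Set.range fun t' : T p => (⟨p, Sum.inl t'⟩ : X)).Finite := Set.finite_range _
    refine h4.subset ?_
    rintro _ ⟨k, rfl⟩
    exact ⟨_, (horb k).symm⟩
  intro f hf
  have h5 : f ∈ (orbSub σ ⟨p, Sum.inl t⟩ : Set G) := by
    have h6 := Set.mem_iInter₂.1 hf (orbSub σ ⟨p, Sum.inl t⟩)
    exact h6 ⟨(orbSub_closed _ _).isCompact, orbSub_open _ _ hfin,
      tidy_of_invariant _ _ (orbSub_closed _ _) (orbSub_invariant _ _)⟩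
  exact h5 0

theorem prod_subset (K : Subgroup G) (l : List (Set G)) (hl : ∀ A ∈ l, A ⊆ (K : Set G)) :
    l.prod ⊆ (K : Set G) := by
  induction l with
  | nil =>
    rw [List.prod_nil]
    rintro x rfl
    exact K.one_mem
  | cons B l ih =>
    rw [List.prod_cons]
    rintro _ ⟨x, hx, y, hy, rfl⟩
    exact K.mul_mem (hl B List.mem_cons_self hx)
      (ih (fun A hA => hl A (List.mem_cons_of_mem _ hA)) hy)

/-- The nub of `HH` contains the indicators of all points of the tori. -/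
theorem mulSingle_mem_nub (p : ℕ) [NeZero p] (t : T p) :
    (Pi.mulSingle (⟨p, Sum.inl t⟩ : X) c : G) ∈ (⋂ (U : Subgroup G)
            (_ : IsCompact (U : Set G) ∧ IsOpen (U : Set G) ∧ ∀ A ∈ HH, Tidy A U),
            (U : Set G)) := by
  rw [Set.mem_iInter₂]
  rintro U ⟨_, hU, ht⟩
  refine mulSingle_mem (α t.2.val) U hU (ht _ ?_) _ (α_injective p t)
  refine ⟨α t.2.val, ?_, rfl⟩
  have ha : a ∈ Subgroup.closure ({a, b} : Set (Equiv.Perm X)) :=
    Subgroup.subset_closure (by simp)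
  have hb : b ∈ Subgroup.closure ({a, b} : Set (Equiv.Perm X)) :=
    Subgroup.subset_closure (by simp)
  exact Subgroup.mul_mem _ (Subgroup.mul_mem _ (Subgroup.pow_mem _ hb _) ha)
    (Subgroup.inv_mem _ (Subgroup.pow_mem _ hb _))

/-- the subgroup of functions trivial at a point -/
def ptSub (x : X) : Subgroup G where
  carrier := {f | f x = 1}
  mul_mem' := fun {f g} hf hg => by
    change f x * g x = 1
    rw [show f x = 1 from hf, show g x = 1 from hg, one_mul]
  one_mem' := rfl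
  inv_mem' := fun {f} hf => by
    change (f x)⁻¹ = 1
    rw [show f x = 1 from hf, inv_one]

theorem main (l : List (MulAut G)) (hl : ∀ A ∈ l, A ∈ HH) :
    (⋂ (U : Subgroup G)
            (_ : IsCompact (U : Set G) ∧ IsOpen (U : Set G) ∧ ∀ A ∈ HH, Tidy A U),
            (U : Set G)) ≠ (l.map nub).prod := by
  intro h
  obtain ⟨p, hp, t, ht⟩ := exists_point l hl
  have h1 := mulSingle_mem_nub p t
  rw [h] at h1
  have h2 : (l.map nub).prod ⊆ (ptSub ⟨p, Sum.inl t⟩ : Set G) := by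
    apply prod_subset
    intro A hA
    obtain ⟨B, hB, rfl⟩ := List.mem_map.1 hA
    exact ht B hB
  have h3 : (Pi.mulSingle (⟨p, Sum.inl t⟩ : X) c : G) ⟨p, Sum.inl t⟩ = 1 := h2 h1
  rw [Pi.mulSingle_eq_same] at h3
  exact c_ne h3

end Pool.Agent.Y49.NubNotProduct
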