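import Mathlib

set_option autoImplicit false

/-!
The countable power `G` of the symmetric group `S₃`.  Its Zariski topology is the (compact,
Hausdorff) product topology: by centrelessness the sets `{x | x i = t}` are intersections of
solution sets `{x | x g x⁻¹ h⁻¹ = 1}`, and finite unions of them are all the cylinder sets.
-/

namespace Pool.Agent.Y49.ZariskiProd

open TopologicalSpace

/-- The finite centreless group used. -/
abbrev H : Type := Equiv.Perm (Fin 3)

instance : TopologicalSpace H := ⊥
instance : DiscreteTopology H := ⟨rfl⟩

/-- The group: countable power of `S₃`. -/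
abbrev G : Type := ℕ → H

theorem H_centreless (s t : H) (h : ∀ c : H, s * c * s⁻¹ = t * c * t⁻¹) : s = t := by
  revert s t
  decide

theorem infinite_G : Infinite G := by
  have : Function.Injective (fun (n : ℕ) => (Pi.mulSingle n (Equiv.swap (0 : Fin 3) 1) : G)) := by
    intro m n hmn
    by_contra hne
    have h1 := congrFun hmn m
    simp only [Pi.mulSingle_eq_same] at h1
    rw [Pi.mulSingle_eq_of_ne hne] at h1
    exact absurd h1 (by decide)
  exact Infinite.of_injective _ this

/-- A family of sets which are open in the product topology and contains the basic conjugacy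
sets generates exactly the product topology. -/
theorem generateFrom_eq (F : Set (Set G)) (hopen : ∀ U ∈ F, IsOpen U)
    (hconj : ∀ g h : G, {x : G | x * g * x⁻¹ = h}ᶜ ∈ F) :
    generateFrom F = (inferInstance : TopologicalSpace G) := by
  apply le_antisymm
  · refine le_iInf fun i => ?_
    rw [← continuous_iff_le_induced]
    let _ := generateFrom F
    have key : ∀ t : H, @IsClosed G (generateFrom F) {x : G | x i = t} := by
      intro t
      have h1 : {x : G | x i = t} =
          ⋂ c : H, {x : G | x * (Pi.mulSingle i c) * x⁻¹ = Pi.mulSingle i (t * c * t⁻¹)} := by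
        ext x
        simp only [Set.mem_ofPred_eq, Set.mem_iInter]
        constructor
        · intro hx c
          funext j
          by_cases hj : j = i
          · subst hj
            simp [hx]
          · simp [Pi.mulSingle_eq_of_ne hj]
        · intro hx
          apply H_centreless
          intro c
          have := congrFun (hx c) i
          simpa using this
      rw [h1]
      refine @isClosed_iInter G H (generateFrom F) _ fun c => ?_
      exact ⟨isOpen_generateFrom_of_mem (hconj (Pi.mulSingle i c) (Pi.mulSingle i (t * c * t⁻¹)))⟩
    rw [continuous_iff_isClosed]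
    intro C _
    have h2 : (fun x : G => x i) ⁻¹' C = ⋃ t ∈ C, {x : G | x i = t} := by
      ext x; simp
    rw [h2]
    exact @Set.Finite.isClosed_biUnion G _ (generateFrom F) C _ (Set.toFinite C) (fun t _ => key t)
  · exact le_generateFrom hopen

/-- Evaluating a word of `G * F(x)` is continuous in the variable. -/
theorem continuous_word_free (w : Monoid.Coprod G (FreeGroup Unit)) :
    Continuous fun g : G =>
      Monoid.Coprod.lift (MonoidHom.id G) (FreeGroup.lift (fun _ => g)) w := by
  induction w using Monoid.Coprod.induction_on with
  | inl m => simpa using continuous_const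
  | inr n =>
    simp only [Monoid.Coprod.lift_apply_inr]
    induction n using FreeGroup.induction_on with
    | C1 => simpa using continuous_const
    | of x => simpa using continuous_id'
    | inv_of x _ => simpa using continuous_inv
    | mul x y hx hy => (simp only [map_mul]; exact hx.mul hy)
  | mul x y hx hy => (simp only [map_mul]; exact hx.mul hy)

/-- Evaluating a word of `G * ℤ` is continuous in the variable. -/
theorem continuous_word_int (w : Monoid.Coprod G (Multiplicative ℤ)) :
    Continuous fun x : G =>
      Monoid.Coprod.lift (MonoidHom.id G) (zpowersHom G x) w := by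
  induction w using Monoid.Coprod.induction_on with
  | inl m => simpa using continuous_const
  | inr n =>
    simp only [Monoid.Coprod.lift_apply_inr, zpowersHom_apply]
    exact continuous_zpow _
  | mul x y hx hy => (simp only [map_mul]; exact hx.mul hy)

theorem zariski_free_eq :
    generateFrom {U : Set G | ∃ w : Monoid.Coprod G (FreeGroup Unit),
          U = {g : G | Monoid.Coprod.lift (MonoidHom.id G) (FreeGroup.lift (fun _ => g)) w = 1}ᶜ}
      = (inferInstance : TopologicalSpace G) := by
  apply generateFrom_eq
  · rintro U ⟨w, rfl⟩
    rw [isOpen_compl_iff]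
    exact isClosed_eq (continuous_word_free w) continuous_const
  · intro g h
    refine ⟨Monoid.Coprod.inr (FreeGroup.of ()) * Monoid.Coprod.inl g *
      (Monoid.Coprod.inr (FreeGroup.of ()))⁻¹ * Monoid.Coprod.inl h⁻¹, ?_⟩
    congr 1
    ext x
    simp [mul_inv_eq_one]

theorem zariski_int_eq :
    generateFrom {U : Set G | ∃ w : Monoid.Coprod G (Multiplicative ℤ),
            U = {x : G | Monoid.Coprod.lift (MonoidHom.id G) (zpowersHom G x) w ≠ 1}}
      = (inferInstance : TopologicalSpace G) := by
  apply generateFrom_eq
  · rintro U ⟨w, rfl⟩
    exact isOpen_ne_fun (continuous_word_int w) continuous_const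
  · intro g h
    refine ⟨Monoid.Coprod.inr (Multiplicative.ofAdd 1) * Monoid.Coprod.inl g *
      (Monoid.Coprod.inr (Multiplicative.ofAdd 1))⁻¹ * Monoid.Coprod.inl h⁻¹, ?_⟩
    ext x
    simp [mul_inv_eq_one]

end Pool.Agent.Y49.ZariskiProd
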